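import Pool.Agent.MP_6a4325_al.H62.Spec

/-!
Row M2: a finitely generated group with the hereditary property and finite virtual first Betti
number is abelian-by-finite.
-/

set_option autoImplicit false

namespace Pool.Agent.MP_6a4325_al.H21

open Pool.Agent.MP_6a4325_al.H62

theorem hw_sub {G : Type} [Group G] (h : HW G) (K : Subgroup G) : HW K := by
  intro H Q _ f hf
  let e := H.equivMapOfInjective K.subtype K.subtype_injective
  refine h (H.map K.subtype) Q (f.comp e.symm.toMonoidHom) ?_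
  intro q
  obtain ⟨x, rfl⟩ := hf q
  exact ⟨e x, by simp⟩

theorem va_of_finiteIndex {G : Type} [Group G] (K : Subgroup G) [hK : K.FiniteIndex]
    (h : VA K) : VA G := by
  obtain ⟨A, -, hA, hc⟩ := h
  have hfi : (A.map K.subtype).FiniteIndex := by
    refine ⟨?_⟩
    rw [Subgroup.index_map_subtype]
    exact mul_ne_zero hA.index_ne_zero hK.index_ne_zero
  refine ⟨(A.map K.subtype).normalCore, inferInstance, inferInstance, ?_⟩
  intro a ha b hb
  obtain ⟨a', ha', rfl⟩ := (A.map K.subtype).normalCore_le ha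
  obtain ⟨b', hb', rfl⟩ := (A.map K.subtype).normalCore_le hb
  rw [← map_mul, ← map_mul, hc a' ha' b' hb']

/-- restriction of real characters -/
def res {G : Type} [Group G] {K K' : Subgroup G} (h : K' ≤ K) :
    (Additive K →+ ℝ) →ₗ[ℝ] (Additive K' →+ ℝ) where
  toFun χ := χ.comp (MonoidHom.toAdditive (Subgroup.inclusion h))
  map_add' _ _ := rfl
  map_smul' _ _ := rfl

theorem res_apply {G : Type} [Group G] {K K' : Subgroup G} (h : K' ≤ K) (χ : Additive K →+ ℝ)
    (g : G) (hg : g ∈ K') :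
    res h χ (Additive.ofMul ⟨g, hg⟩) = χ (Additive.ofMul ⟨g, h hg⟩) := rfl

theorem chi_pow {G : Type} [Group G] {K : Subgroup G} (χ : Additive K →+ ℝ) (g : K) (m : ℕ) :
    χ (Additive.ofMul ⟨(g : G) ^ m, K.pow_mem g.2 m⟩) = m * χ (Additive.ofMul g) := by
  have : (⟨(g : G) ^ m, K.pow_mem g.2 m⟩ : K) = g ^ m := rfl
  rw [this, ofMul_pow, map_nsmul, nsmul_eq_mul]

theorem res_inj {G : Type} [Group G] {K K' : Subgroup G} (h : K' ≤ K) [hK : K'.FiniteIndex] :
    Function.Injective (res h) := by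
  rw [injective_iff_map_eq_zero]
  intro χ hχ
  ext g
  obtain ⟨m, hm, -, hmem⟩ := K'.exists_pow_mem_of_index_ne_zero hK.index_ne_zero (g : G)
  have h1 := res_apply h χ _ hmem
  rw [hχ, chi_pow] at h1
  have h2 : (m : ℝ) ≠ 0 := by exact_mod_cast hm.ne'
  have h3 : χ (Additive.ofMul g) = 0 := by
    rcases mul_eq_zero.mp h1.symm with h4 | h4
    · exact absurd h4 h2
    · exact h4
  simpa using h3

theorem chi_comm {K : Type} [Group K] (χ : Additive K →+ ℝ) (y : K) (hy : y ∈ commutator K) :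
    χ (Additive.ofMul y) = 0 := by
  have h := Abelianization.commutator_subset_ker (AddMonoidHom.toMultiplicativeRight χ) hy
  rw [MonoidHom.mem_ker] at h
  exact h

theorem exists_max {G : Type} [Group G] (h : FinVB G) :
    ∃ K : Subgroup G, K.FiniteIndex ∧ ∀ K' : Subgroup G, K'.FiniteIndex → ∀ hle : K' ≤ K,
      Function.Surjective (res hle) := by
  obtain ⟨r, hr⟩ := h
  have hfin : ∀ K : Subgroup G, K.FiniteIndex → Module.Finite ℝ (Additive K →+ ℝ) := by
    intro K hK
    exact Module.rank_lt_aleph0_iff.mp ((hr K hK).trans_lt Cardinal.natCast_lt_aleph0)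
  have hle : ∀ K : Subgroup G, K.FiniteIndex → Module.finrank ℝ (Additive K →+ ℝ) ≤ r := by
    intro K hK
    exact Module.finrank_le_of_rank_le (hr K hK)
  let S : Set ℕ := {d | ∃ K : Subgroup G, K.FiniteIndex ∧ Module.finrank ℝ (Additive K →+ ℝ) = d}
  have hS : S.Nonempty := ⟨_, ⊤, inferInstance, rfl⟩
  have hb : BddAbove S := ⟨r, by rintro d ⟨K, hK, rfl⟩; exact hle K hK⟩
  obtain ⟨K, hK, hd⟩ := Nat.sSup_mem hS hb
  refine ⟨K, hK, fun K' hK' h' => ?_⟩
  have := hfin K hK
  have := hfin K' hK'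
  have h1 : Module.finrank ℝ (Additive K' →+ ℝ) ≤ Module.finrank ℝ (Additive K →+ ℝ) := by
    rw [hd]
    exact le_csSup hb ⟨K', hK', rfl⟩
  have h2 := LinearMap.finrank_le_finrank_of_injective (res_inj h')
  exact (LinearMap.injective_iff_surjective_of_finrank_eq_finrank (le_antisymm h2 h1)).mp
    (res_inj h')

theorem m2 : SVrc → STor → ST12 → SM2 := by
  intro hV hT h12 G _ hfg hW hB
  obtain ⟨K, hK, hmax⟩ := exists_max hB
  have htor : ∀ y : K, y ∈ commutator K → IsOfFinOrder y := by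
    intro y hy
    by_contra hn
    have hn' : ¬ IsOfFinOrder (y : G) := fun h => hn ((K.subtype_injective.isOfFinOrder_iff).mp h)
    obtain ⟨K1, hK1, χ1, k, hk, hne⟩ := hV G hfg hW y hn'
    obtain ⟨χ, hχ⟩ := hmax (K ⊓ K1) inferInstance inf_le_left (res inf_le_right χ1)
    have hmem : (y : G) ^ k ∈ K ⊓ K1 := ⟨K.pow_mem y.2 k, hk⟩
    have h1 := res_apply (inf_le_left : K ⊓ K1 ≤ K) χ _ hmem
    rw [hχ, res_apply, chi_pow, chi_comm χ y hy, mul_zero] at h1
    exact hne h1
  have hWK := hw_sub hW K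
  refine va_of_finiteIndex K (h12 K hWK ?_)
  intro T hTc
  have hle : Subgroup.closure (↑T : Set K) ≤ commutator K :=
    (Subgroup.closure_le _).mpr fun g hg => hTc g hg
  refine hT _ ?_ (hWK _ _ (MonoidHom.id _) Function.surjective_id).2.1 ?_
  · exact (Group.fg_iff_subgroup_fg _).mpr ⟨T, rfl⟩
  · intro g
    exact ((Subgroup.closure (↑T : Set K)).subtype_injective.isOfFinOrder_iff).mp
      (htor g (hle g.2))

end Pool.Agent.MP_6a4325_al.H21
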